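import Pool.Agent.helper53.SP4.Spec2
set_option autoImplicit false
namespace Pool.Agent.SP4
open Pool.Agent.GS

theorem S5E_nondeg {F : Type} [Field F] (v : Fin 4 → F) (h : ∀ w, B v w = 0) : v = 0 := by
  have h0 := h (Pi.single 0 1)
  have h1 := h (Pi.single 1 1)
  have h2 := h (Pi.single 2 1)
  have h3 := h (Pi.single 3 1)
  simp [B] at h0 h1 h2 h3
  funext i
  fin_cases i
  · exact h3
  · exact h2
  · exact h1
  · exact h0

theorem S5E_one {F : Type} [Field F] (v : Fin 4 → F) (hv : v ≠ 0) (t : SG F) (ht : IsT v t) : t ≠ 1 := by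
  intro h
  subst h
  apply hv
  apply S5E_nondeg
  intro w
  have h1 := ht w
  have h2 : B v w • v = 0 := by
    have h3 : w = w + B v w • v := h1
    exact left_eq_add.1 h3
  exact (smul_eq_zero.1 h2).resolve_right hv

theorem S5E_zero {F : Type} [Field F] (t : SG F) (ht : IsT (0 : Fin 4 → F) t) : t = 1 := by
  apply Subtype.ext
  apply LinearEquiv.ext
  intro w
  have h1 := ht w
  rw [smul_zero, add_zero] at h1
  exact h1

theorem S5E (hS4E : S4E_stmt) (hS4D : S4D_stmt) (hS5T : S5T_stmt) (hS5V : S5V_stmt) (hS5L : S5L_stmt) :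
    S5E_stmt := by
  intro F _ _ _ hGS x hx r hr hr2 hrd
  obtain ⟨Φ, Ψ, L, -, -, -, hΦ⟩ := hS5T F
  by_cases h : ∀ s, IsTv s → IsTv (x s)
  · obtain ⟨β, h1, h2, -, h4⟩ := hGS x (hS5L F x h) hx r hr hr2 hrd
    have h5 : Nat.card (SG F) = Nat.card (PSp 2 F) := Nat.card_congr Φ.toEquiv
    have h6 := hS4D F r hr hr2 (by rw [h5]; exact hrd)
    refine ⟨β, h1, h4 2 (by norm_num) le_rfl h6, ?_⟩
    split_ifs with h7
    · omega
    · exact h2
  · push Not at h
    obtain ⟨s, hs1, hs2⟩ := h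
    refine hS4E F hGS x ⟨s, hs1, hs2⟩ (Or.inr (hS5L F (x * x) ?_)) r hr hr2 hrd
    obtain ⟨x', hx'⟩ : ∃ x' : MulAut (SG F), ∀ t, Φ (x' t) = x (Φ t) :=
      ⟨(Φ.trans (x : PSp 2 F ≃* PSp 2 F)).trans Φ.symm, fun t => Φ.apply_symm_apply _⟩
    have hSw : Sw x' := by
      have h1 : IsTv (Φ (Φ.symm s)) := by rw [Φ.apply_symm_apply]; exact hs1
      obtain ⟨v, hv, hvt⟩ := (hΦ _).2 h1
      refine ⟨v, Φ.symm s, hv, hvt, fun w hw => ?_⟩
      have h2 : w ≠ 0 := by
        rintro rfl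
        have h3 := S5E_zero _ hw
        have h4 : Φ.symm s = 1 := by
          apply x'.injective
          rw [h3, map_one]
        exact S5E_one v hv _ hvt h4
      have h5 := (hΦ _).1 ⟨w, h2, hw⟩
      rw [hx', Φ.apply_symm_apply] at h5
      exact hs2 h5
    intro u hu
    have h1 : IsTv (Φ (Φ.symm u)) := by rw [Φ.apply_symm_apply]; exact hu
    obtain ⟨v, hv, hvt⟩ := (hΦ _).2 h1
    obtain ⟨w, hw⟩ := hS5V F x' hSw v (Φ.symm u) hv hvt
    have h2 : w ≠ 0 := by
      rintro rfl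
      have h3 := S5E_zero _ hw
      have h4 : Φ.symm u = 1 := by
        apply x'.injective
        apply x'.injective
        rw [h3, map_one, map_one]
      exact S5E_one v hv _ hvt h4
    have h5 := (hΦ _).1 ⟨w, h2, hw⟩
    rw [hx', hx', Φ.apply_symm_apply] at h5
    exact h5

end Pool.Agent.SP4
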